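import Pool.Agent.MP_c69980_ag.H1.S2a
import Pool.Agent.MP_c69980_ag.H4.SpecC

/-!
Test functions on discs that exhaust the unit disc.
-/

set_option autoImplicit false

noncomputable section

namespace Pool.Agent.MP_c69980_ag.H1

open Real Set Filter Topology MeasureTheory Metric H4 H88

/-- The characteristic function. -/
def tb (m : ℂ → ℝ) (ρ x : ℝ) : ℝ := ∫ z, m z * max (x - ll ρ z) 0

variable {m ν g g' : ℂ → ℝ} {ρ r s x y l ε A B : ℝ}

lemma tb_int (hm : Integrable m) (hρ : 0 < ρ) (x : ℝ) :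
    Integrable fun z => m z * max (x - ll ρ z) 0 :=
  hm.mul_bdd (mx_cont hρ x).aestronglyMeasurable (ae_of_all _ (mx_le le_rfl))

lemma tb_mono (hm : Integrable m) (h0 : ∀ z, 0 ≤ m z) (hρ : 0 < ρ) (H : x ≤ y) :
    tb m ρ x ≤ tb m ρ y :=
  integral_mono (tb_int hm hρ x) (tb_int hm hρ y) fun z =>
    mul_le_mul_of_nonneg_left (max_le_max_right _ (by linarith)) (h0 z)

lemma regl (hm : Integrable m) (h0 : ∀ z, 0 ≤ m z) (hρ : 0 < ρ) (hl : 0 < l) (h1 : 1 ≤ tb m ρ y) :
    ∃ x h, y ≤ x ∧ 0 < h ∧ x + 100 * h = y + l ∧ tb m ρ (x + 5 * h) ≤ 2 * tb m ρ x ∧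
      l ^ 2 ≤ 10000 * (tb m ρ x * h ^ 2) := by
  obtain ⟨u, h, k1, k2, k3, k4, k5⟩ := borel (y := 0) (τ := fun u => tb m ρ (y + l * u))
    (continuousOn_of_dominated (bound := fun z => ‖m z‖ * |y + l|)
      (fun u _ => (tb_int hm hρ _).aestronglyMeasurable)
      (fun u hu => ae_of_all _ fun z => (norm_mul _ _).trans_le (mul_le_mul_of_nonneg_left
        (mx_le (by nlinarith [hu.2])  z) (norm_nonneg _))) (hm.norm.mul_const _)
      (ae_of_all _ fun _ => by fun_prop)) (by simpa using one_pos.trans_le h1)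
    fun u => integral_nonneg fun z => mul_nonneg (h0 z) (le_max_right _ _)
  refine ⟨y + l * u, l * h, by nlinarith, mul_pos hl k2, by linear_combination l * k3, ?_, ?_⟩
  · rwa [show y + l * u + 5 * (l * h) = y + l * (u + 5 * h) by ring]
  · rw [mul_zero, add_zero] at k5
    nlinarith [mul_le_mul_of_nonneg_left (h1.trans k5) (sq_nonneg l)]

lemma cut_int (hν : Den (ball 0 1) ν) (hs : s < 1) : Integrable (indicator (closedBall 0 s) ν) :=
  (integrable_indicator_iff measurableSet_closedBall).2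
    ((hν.1.mono (closedBall_subset_ball hs)).integrableOn_compact (isCompact_closedBall _ _))

lemma cut_nonneg (hν : Den (ball 0 1) ν) (hs : s < 1) (z : ℂ) :
    0 ≤ indicator (closedBall 0 s) ν z :=
  indicator_nonneg (fun w hw => hν.2 w (closedBall_subset_ball hs hw)) z

lemma cut_eq (h : ∀ z, s ≤ ‖z‖ → g z = 0) :
    ∫ z, ν z * g z = ∫ z, indicator (closedBall 0 s) ν z * g z := by
  refine integral_congr_ae (ae_of_all _ fun z => ?_)
  by_cases hz : z ∈ closedBall 0 s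
  · simp only [indicator_of_mem hz]
  · simp [h z (le_of_lt (by simpa using hz))]

lemma TN_le (hν : Den (ball 0 1) ν) (hρ : 0 < ρ) (h1 : ρ ≤ r) (h2 : r ≤ s) (hs : s < 1)
    (hb : ∀ z ∈ ball (0 : ℂ) ρ, ν z ≤ 1 / ρ ^ 2) :
    TN ν r ≤ tb (indicator (closedBall 0 s) ν) ρ (2 + 2 * log (r / ρ)) / 2 + 2 := by
  obtain ⟨i1, i2⟩ := int_log hρ
  have i3 := ((integrable_indicator_iff measurableSet_ball).2 i1).div_const (4 * ρ ^ 2)
  have i4 := (tb_int (cut_int hν hs) hρ (2 + 2 * log (r / ρ))).div_const 2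
  have hr := hρ.trans_le h1
  rw [TN, ← integral_indicator measurableSet_ball]
  refine (integral_mono_of_nonneg ((Measure.ae_ne volume (0 : ℂ)).mono fun z hz => ?_) (i4.add i3)
    ((Measure.ae_ne volume (0 : ℂ)).mono fun z hz => ?_)).trans ?_
  · exact indicator_apply_nonneg fun H => mul_nonneg (log_nonneg ((one_le_div
      (norm_pos_iff.2 hz)).2 (mem_ball_zero_iff.1 H).le))
      (hν.2 z (ball_subset_ball (h2.trans hs.le) H))
  · have hz0 := norm_pos_iff.2 hz
    have p1 : 0 ≤ indicator (ball 0 ρ) (fun z : ℂ => log (ρ / ‖z‖) * 4) z / (4 * ρ ^ 2) :=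
      div_nonneg (indicator_apply_nonneg fun H => mul_nonneg (log_nonneg ((one_le_div hz0).2
        (mem_ball_zero_iff.1 H).le)) zero_le_four) (by positivity)
    simp only [Pi.add_apply]
    by_cases H : z ∈ ball (0 : ℂ) r
    · have n0 := hν.2 z (ball_subset_ball (h2.trans hs.le) H)
      have m1 := mul_le_mul_of_nonneg_left (le_max_left (2 + 2 * log (r / ρ) - ll ρ z) 0) n0
      rw [indicator_of_mem H, indicator_of_mem
        (mem_closedBall_zero_iff.2 ((mem_ball_zero_iff.1 H).le.trans h2))]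
      by_cases H' : z ∈ ball (0 : ℂ) ρ
      · have h3 := (mem_ball_zero_iff.1 H').le
        have h4 : ll ρ z ≤ 2 := uu_le' ((Lg_le hρ (by norm_num)).2 (by rwa [rr_two])) one_le_two
        have h5 := mul_le_mul_of_nonneg_left (hb z H') (log_nonneg ((one_le_div hz0).2 h3))
        have h6 : log (ρ / ‖z‖) * 4 / (4 * ρ ^ 2) = log (ρ / ‖z‖) * (1 / ρ ^ 2) := by field_simp
        rw [indicator_of_mem H', h6, show log (r / ‖z‖) = log (r / ρ) + log (ρ / ‖z‖) by
          rw [log_div hr.ne' hz0.ne', log_div hr.ne' hρ.ne', log_div hρ.ne' hz0.ne']; ring]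
        nlinarith [mul_le_mul_of_nonneg_left h4 n0]
      · have h4 := ll_le_log hρ (z := z) (by simpa using H')
        rw [show log (r / ‖z‖) = log (r / ρ) - log (‖z‖ / ρ) by
          rw [log_div hr.ne' hz0.ne', log_div hr.ne' hρ.ne', log_div hz0.ne' hρ.ne']; ring]
        nlinarith [mul_le_mul_of_nonneg_left h4 n0]
    · rw [indicator_of_notMem H]
      exact add_nonneg (div_nonneg (mul_nonneg (cut_nonneg hν hs z) (le_max_right _ _))
        zero_le_two) p1
  · simp only [Pi.add_apply]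
    rw [integral_add i4 i3, integral_div, integral_div, integral_indicator measurableSet_ball, i2]
    refine add_le_add le_rfl ?_
    rw [div_le_iff₀ (by positivity)]
    nlinarith [pi_le_four, sq_nonneg ρ]

lemma mass (hν : Den (ball 0 1) ν) (hρ : 0 < ρ) (h1 : 16 * ρ ≤ s) (hs : s < 1) (hx : 8 ≤ x)
    (hm : ENNReal.ofReal ε ≤ mu ν (ball 0 (16 * ρ))) :
    ε * (x - 8) ≤ tb (indicator (closedBall 0 s) ν) ρ x := by
  have h2 : 16 * ρ ≤ rr ρ 8 := by
    have h := exp_one_gt_d9.le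
    have : (2.7 : ℝ) ^ 3 ≤ exp 1 ^ 3 := pow_le_pow_left₀ (by norm_num) (by linarith) 3
    rw [rr, show ((8 : ℝ) - 2) / 2 = (3 : ℕ) * 1 by norm_num, exp_nat_mul]
    nlinarith
  have i := cut_int hν hs
  have p := cut_nonneg hν hs
  have h3 : ε ≤ ∫ z in ball (0 : ℂ) (16 * ρ), indicator (closedBall 0 s) ν z := by
    rw [← ENNReal.ofReal_le_ofReal_iff (integral_nonneg p),
      ofReal_integral_eq_lintegral_ofReal i.integrableOn (ae_of_all _ p)]
    exact hm.trans_eq (setLIntegral_congr_fun measurableSet_ball fun z hz => by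
      simp only [indicator_of_mem (ball_subset_closedBall (ball_subset_ball h1 hz))])
  refine (mul_le_mul_of_nonneg_right h3 (by linarith)).trans ?_
  rw [← integral_mul_const]
  refine (setIntegral_mono_on (i.mul_const _).integrableOn (tb_int i hρ x).integrableOn
    measurableSet_ball fun z hz => mul_le_mul_of_nonneg_left (le_max_of_le_left ?_) (p z)).trans
    (setIntegral_le_integral (tb_int i hρ x)
      (ae_of_all _ fun z => mul_nonneg (p z) (le_max_right _ _)))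
  exact sub_le_sub_left (uu_le' ((Lg_le hρ (by norm_num)).2
    ((mem_ball_zero_iff.1 hz).le.trans h2)) (by norm_num)) _

/-- The qualitative properties. -/
def P1 (c₀ : ℝ) (ν : ℂ → ℝ) (ρ r : ℝ) (g g' : ℂ → ℝ) (T : ℝ) : Prop :=
  TN ν r ≤ T ∧ TF c₀ (ball 0 ((1 + r) / 2)) (ball 0 ρ) g ∧
    TF c₀ (ball 0 ((1 + r) / 2)) (ball 0 ρ) g' ∧ (∀ z, g z ≤ g' z) ∧
    T ≤ ∫ z, ν z * g z ∧ ∫ z, ν z * g' z ≤ 2 * T ∧
    ∃ σ : ℂ → ℝ, Continuous σ ∧ (∀ z, 0 ≤ σ z) ∧ (∀ z w, ‖z‖ = ‖w‖ → σ z = σ w) ∧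
      tsupport σ ⊆ ball 0 ρ ∧ ∀ z ∈ ball 0 ρ, lap g z = -σ z

/-- The quantitative properties. -/
def P2 (ρ : ℝ) (g g' : ℂ → ℝ) (B : ℝ) : Prop :=
  (∀ z ∉ ball 0 ρ, lap g z ≤ exp B * g' z) ∧
    (∃ Y : ℂ → ℝ, Integrable Y ∧ (∀ z, 0 ≤ Y z) ∧ ∫ z, Y z ≤ B ∧
      ∀ z, ‖grad g z‖ ^ 2 ≤ g' z * Y z) ∧
    ∫⁻ z, ENNReal.ofReal (g' z / (1 - ‖z‖) ^ 2) ≤ ENNReal.ofReal B

lemma P2.mono (h : P2 ρ g g' A) (h0 : ∀ z, 0 ≤ g' z) (H : A ≤ B) : P2 ρ g g' B := by
  obtain ⟨h1, ⟨Y, y1, y2, y3, y4⟩, h3⟩ := h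
  exact ⟨fun z hz => (h1 z hz).trans (mul_le_mul_of_nonneg_right (exp_le_exp.2 H) (h0 z)),
    ⟨Y, y1, y2, y3.trans H, y4⟩, h3.trans (ENNReal.ofReal_le_ofReal H)⟩

lemma one {M : ℝ} (hM : 0 < M) (hb : ∀ t, sd t ≤ M) (hν : Den (ball 0 1) ν) (hρ : 0 < ρ)
    (hρ1 : ρ ≤ 1 / 32) (hr : 1 / 2 < r) (hr1 : r < 1) (hε : 0 < ε)
    (hm : 1 / 32 ≤ ρ ∨ ENNReal.ofReal ε ≤ mu ν (ball 0 (16 * ρ)))
    (hn : ∀ z ∈ ball (0 : ℂ) ρ, ν z ≤ 1 / ρ ^ 2) :
    ∃ (g g' : ℂ → ℝ) (T : ℝ), 0 < T ∧ (∀ z, 0 ≤ g' z) ∧ (4 ≤ TN ν r →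
      P1 (8 * π * M) ν ρ r g g' T ∧
      P2 ρ g g' ((26000 + 64 * M) * (1 + log (1 / (1 - r)) + |log ε| + log T))) := by
  by_cases h4 : 4 ≤ TN ν r
  swap
  · exact ⟨0, 0, 1, one_pos, fun _ => le_rfl, fun h => absurd h h4⟩
  obtain ⟨s, hs⟩ : ∃ s, s = (1 + r) / 2 := ⟨_, rfl⟩
  have r0 : 0 < r := by linarith
  have s0 : 0 < s := by linarith
  have s1 : s < 1 := by linarith
  have i := cut_int hν s1
  have p := cut_nonneg hν s1
  have l1 : 1 - r ≤ 2 * log (s / r) := by
    have h1 := one_sub_inv_le_log_of_pos (div_pos s0 r0)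
    have h2 : r / s ≤ 1 - (s - r) := by rw [div_le_iff₀ s0]; nlinarith
    rw [inv_div] at h1
    linarith
  have l2 : log (s / r) ≤ 1 := by
    have h1 := log_le_sub_one_of_pos (div_pos s0 r0)
    have h2 : s / r ≤ 2 := by rw [div_le_iff₀ r0]; linarith
    linarith
  have t1 := TN_le hν hρ (by linarith) (show r ≤ s by linarith) s1 hn
  obtain ⟨x, h, x1, hh, e, k1, k2⟩ := regl (y := 2 + 2 * log (r / ρ)) (l := 2 * log (s / r)) i p hρ
    (by linarith) (by linarith)
  have t2 := tb_mono i p hρ x1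
  set T := tb (indicator (closedBall 0 s) ν) ρ x with hT
  have e' : x + 100 * h = 2 + 2 * log (s / ρ) := by
    rw [e, log_div r0.ne' hρ.ne', log_div s0.ne' r0.ne', log_div s0.ne' hρ.ne']
    ring
  have x2 : 2 ≤ x := by linarith [log_nonneg ((one_le_div hρ).2 (show ρ ≤ r by linarith))]
  have b1 : 1 + h ≤ x + h := by linarith
  have b2 : 1 + h ≤ x + h + 2 * h := by linarith
  have rs : ∀ a, a < x + 100 * h → rr ρ a < s := fun a ha =>
    (rr_sm hρ (ha.trans_eq e')).trans_eq (rr_log hρ s0)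
  have z1 : ∀ z, s ≤ ‖z‖ → gg ρ (x + h) h z = 0 := fun z hz =>
    gg_zero hρ hh b1 ((rs _ (by linarith)).le.trans hz)
  have z2 : ∀ z, s ≤ ‖z‖ → gg ρ (x + h + 2 * h) h z = 0 := fun z hz =>
    gg_zero hρ hh b2 ((rs _ (by linarith)).le.trans hz)
  have gi : ∀ a, 1 + h ≤ a → Integrable fun z => indicator (closedBall 0 s) ν z * gg ρ a h z :=
    fun a ha => i.mul_bdd (gg_cont hρ a h).aestronglyMeasurable (ae_of_all _ fun z =>
      (norm_of_nonneg (gg_nonneg hh ha z)).trans_le ((gg_le hh ha z).trans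
        ((le_abs_self _).trans (mx_le le_rfl z))))
  refine ⟨gg ρ (x + h) h, gg ρ (x + h + 2 * h) h, T, by linarith, gg_nonneg hh b2, fun _ =>
    ⟨⟨by linarith, hs ▸ tf hρ hh b1 hM hb (rs _ (by linarith)),
      hs ▸ tf hρ hh b2 hM hb (rs _ (by linarith)), fun z => (gg_le hh b1 z).trans
      (max_le (le_trans (by linarith) (le_gg hh b2 z)) (gg_nonneg hh b2 z)), ?_, ?_,
      gg_sig R1.lapRule hρ hh (by linarith)⟩, ?_⟩⟩
  · rw [cut_eq z1]
    exact integral_mono (tb_int i hρ _) (gi _ b1) fun z => mul_le_mul_of_nonneg_left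
      (max_le (le_trans (by linarith) (le_gg hh b1 z)) (gg_nonneg hh b1 z)) (p z)
  · rw [cut_eq z2]
    exact (integral_mono (gi _ b2) (tb_int i hρ _) fun z => mul_le_mul_of_nonneg_left
      (gg_le hh b2 z) (p z)).trans ((tb_mono i p hρ (by linarith)).trans k1)
  have T1 : 1 ≤ T := by linarith
  have q1 := log_nonneg T1
  have q2 := abs_nonneg (log ε)
  have q3 : log (1 / (1 - r)) = -log (1 - r) := by rw [one_div, log_inv]
  have q4 : log (1 - r) ≤ 0 := log_nonpos (by linarith) (by linarith)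
  have q5 : log 100 ≤ 99 := by linarith [log_le_sub_one_of_pos (show (0 : ℝ) < 100 by norm_num)]
  obtain ⟨q, hq⟩ : ∃ q, q = 1 + log (1 / (1 - r)) + |log ε| + log T := ⟨_, rfl⟩
  have q6 : 1 ≤ q := by linarith
  have c1 : -log h ≤ 100 * q := by
    have h1 : (1 - r) ^ 2 ≤ 100 ^ 2 * (T * h ^ 2) :=
      (pow_le_pow_left₀ (by linarith) l1 2).trans (by linarith)
    have h2 := log_le_log (pow_pos (by linarith) 2) h1
    rw [log_mul (by positivity) (by positivity), log_mul (by positivity) (by positivity), log_pow,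
      log_pow, log_pow] at h2
    push_cast at h2
    linarith
  have c2 : log (x + h) ≤ 100 * q := by
    have h1 : 1 ≤ exp |log ε| := one_le_exp q2
    have h2 : x + h ≤ 100 * (T * exp |log ε|) := by
      have h3 := one_le_mul_of_one_le_of_one_le T1 h1
      rcases hm with hm | hm
      · have h5 := log_le_sub_one_of_pos (div_pos s0 hρ)
        have h6 : s / ρ ≤ 32 := by rw [div_le_iff₀ hρ]; linarith
        linarith
      rcases le_total x 8 with H | H
      · linarith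
      have h5 := mass hν hρ (by linarith) s1 H hm
      have h6 : ε⁻¹ ≤ exp |log ε| := by
        rw [← exp_log (inv_pos.2 hε), log_inv]
        exact exp_le_exp.2 (neg_le_abs _)
      have h7 := ((le_inv_mul_iff₀ hε).2 h5).trans (mul_le_mul_of_nonneg_right h6 (by linarith))
      linarith
    have h3 := log_le_log (by linarith) h2
    rw [log_mul (by positivity) (by positivity), log_mul (by positivity) (by positivity),
      log_exp] at h3
    linarith
  have m1 : 64 * M ≤ 64 * M * q := le_mul_of_one_le_right (by positivity) q6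
  rw [← hq]
  refine ⟨fun z hz => gg_lap_le R1.lapRule hρ hh b1 hM hb ?_ ?_ hz, ?_, ?_⟩
  · rw [add_sub_cancel_right]
    linarith [(rr_sm hρ).monotone x1, rr_log hρ r0]
  · rw [← exp_log (pow_pos hh 2), ← exp_add, log_pow]
    refine le_trans (by linarith [add_one_le_exp (64 * M)]) (exp_le_exp.2 (show 64 * M ≤ _ by
      push_cast; linarith))
  · obtain ⟨Y, y1, y2, y3, y4⟩ := grad_le (a := x + h) hρ hh (by linarith)
    refine ⟨Y, y1, y2, y3.trans ?_, y4⟩
    rw [log_div (by linarith) hh.ne']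
    have := mul_le_mul (show 32 * π ≤ 128 by linarith [pi_le_four])
      (show 201 * q ≤ 201 * q from le_rfl) (by linarith) (by norm_num)
    nlinarith [mul_le_mul_of_nonneg_left (show log (x + h) - log h + 1 ≤ 201 * q by linarith)
      (show 0 ≤ 32 * π by positivity)]
  · refine (hyp s0 s1 z2 fun z hz h1 => (gg_le hh b2 z).trans (max_le ?_ ?_)).trans
      (ENNReal.ofReal_le_ofReal ?_)
    · have hz0 := norm_pos_iff.2 hz
      have h2 := (log_le_Lg hρ hz).trans (le_uu _)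
      rw [log_div s0.ne' hz0.ne']
      rw [log_div hz0.ne' hρ.ne'] at h2
      rw [log_div s0.ne' hρ.ne'] at e'
      linarith [show ll ρ z = uu (Lg ρ z) from rfl]
    · exact mul_nonneg zero_le_two (log_nonneg ((one_le_div (norm_pos_iff.2 hz)).2 h1.le))
    · have h1 : log (1 / (1 - s)) ≤ q := by
        rw [show 1 / (1 - s) = 2 / (1 - r) by rw [hs, div_eq_div_iff (by linarith) (by linarith)]; ring,
          log_div two_ne_zero (by linarith)]
        linarith [log_two_lt_d9]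
      nlinarith [mul_le_mul_of_nonneg_left h1 (show 0 ≤ 4 * π by positivity),
        mul_le_mul_of_nonneg_right pi_le_four (show 0 ≤ q by linarith)]

theorem setup2 : Setup2Stmt := by
  obtain ⟨M, hM, hb⟩ := sd_bd
  refine ⟨8 * π * M, fun ν ρ r ε H hη => ?_⟩
  choose g g' T hT hg hP using fun k => one hM hb (H k).1 (H k).2.1 (H k).2.2.1 (H k).2.2.2.1
    (H k).2.2.2.2.1 (H k).2.2.2.2.2.1 (H k).2.2.2.2.2.2.1 (H k).2.2.2.2.2.2.2
  have q1 : ∀ k, 1 ≤ 1 + log (1 / (1 - r k)) + |log (ε k)| := fun k => by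
    obtain ⟨-, -, -, h1, h2, -⟩ := H k
    linarith [abs_nonneg (log (ε k)), log_nonneg ((one_le_div (show 0 < 1 - r k by linarith)).2
      (show 1 - r k ≤ 1 by linarith))]
  have h4 : ∀ᶠ k in atTop, 4 ≤ TN (ν k) (r k) :=
    (hη (1 / 4) (by norm_num)).mono fun k hk => by linarith [q1 k]
  have hl : Tendsto T atTop atTop := tendsto_atTop.2 fun b => by
    have hb : 0 < max b 1 := by positivity
    filter_upwards [h4, hη _ (inv_pos.2 hb)] with k k1 k2
    have := (le_inv_mul_iff₀ hb).1 ((q1 k).trans k2)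
    linarith [le_max_left b 1, (hP k k1).1.1]
  refine ⟨g, g', T, fun k => ⟨hT k, hg k⟩, h4.mono fun k hk => (hP k hk).1, fun η h0 => ?_⟩
  have hc : 0 < η / (2 * (26000 + 64 * M)) := by positivity
  filter_upwards [h4, hη _ hc, hl.eventually (isLittleO_log_id_atTop.bound hc)] with k k1 k2 k3
  refine (hP k k1).2.mono (hg k) ?_
  rw [id, norm_of_nonneg (hT k).le] at k3
  have k4 := k2.trans (mul_le_mul_of_nonneg_left (hP k k1).1.1 hc.le)
  refine (mul_le_mul_of_nonneg_left (add_le_add k4 ((le_abs_self _).trans k3))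
    (by positivity)).trans_eq ?_
  field_simp
  ring

end Pool.Agent.MP_c69980_ag.H1
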