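import Pool.Agent.MP_c69980_ag.H88.SE
import Pool.Agent.MP_c69980_ag.H66.Rep

/-!
Test functions on discs that exhaust the unit disc: estimates for one function.
-/

set_option autoImplicit false

noncomputable section

namespace Pool.Agent.MP_c69980_ag.H1

open Real Set Filter Topology MeasureTheory Metric H4 H88
open scoped ContDiff

variable {ρ a h M s t : ℝ} {z : ℂ}

lemma rr_log (hρ : 0 < ρ) (ht : 0 < t) : rr ρ (2 + 2 * log (t / ρ)) = t := by
  rw [rr, add_sub_cancel_left, mul_div_cancel_left₀ _ two_ne_zero, exp_log (div_pos ht hρ),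
    mul_div_cancel₀ _ hρ.ne']

lemma log_le_Lg (hρ : 0 < ρ) (hz : z ≠ 0) : 2 + 2 * log (‖z‖ / ρ) ≤ Lg ρ z := by
  rw [← (rr_sm hρ).le_iff_le, rr_log hρ (norm_pos_iff.2 hz), rr_Lg hρ]
  exact le_max_left _ _

lemma ll_le_log (hρ : 0 < ρ) (hz : ρ ≤ ‖z‖) : ll ρ z ≤ 2 + 2 * log (‖z‖ / ρ) := by
  have := log_nonneg ((one_le_div hρ).2 hz)
  exact uu_le' ((Lg_le hρ (by linarith)).2 (rr_log hρ (hρ.trans_le hz)).ge) (by linarith)

lemma tf (hρ : 0 < ρ) (hh : 0 < h) (ha : 1 + h ≤ a) (hM : 0 < M) (hb : ∀ t, sd t ≤ M)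
    (hr : rr ρ a < s) : TF (8 * π * M) (ball 0 s) (ball 0 ρ) (gg ρ a h) := by
  have hL := R1.lapRule
  have hs : tsupport (gg ρ a h) ⊆ closedBall 0 (rr ρ a) :=
    closure_minimal (fun z hz => by
      by_contra hn
      exact hz (gg_zero hρ hh ha (le_of_lt (by simpa using hn)))) isClosed_closedBall
  refine ⟨⟨contDiff_iff_contDiffAt.2 fun z => (gg_all hL hρ hh ha z).1,
    (isCompact_closedBall _ _).of_isClosed_subset (isClosed_tsupport _) hs,
    hs.trans (closedBall_subset_ball hr)⟩, gg_nonneg hh ha, ?_, fun z hz => ?_⟩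
  · have i1 := (Kn_int hρ (a - h) a).const_mul (M / h)
    have i2 := (Kn_int hρ (1 - 1) 1).const_mul M
    refine (integral_mono_of_nonneg (.of_forall fun z => abs_nonneg _) (i1.add i2)
      (.of_forall fun z => ?_)).trans_eq ?_
    · have h1 := div_le_div_of_nonneg_right (sd_Kn hρ hh (by linarith : h ≤ a) hM hb z) hh.le
      have h2 := sd_Kn hρ one_pos le_rfl hM hb z
      have h3 : 0 ≤ sd ((a - Lg ρ z) / h) * (4 / ‖z‖ ^ 2) / h := by
        have := sd_nonneg ((a - Lg ρ z) / h)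
        positivity
      have h4 : 0 ≤ sd (1 - Lg ρ z) * (4 / ‖z‖ ^ 2) := by
        have := sd_nonneg (1 - Lg ρ z)
        positivity
      rw [div_one] at h2
      show |lap (gg ρ a h) z| ≤ M / h * Kn ρ (a - h) a z + M * Kn ρ (1 - 1) 1 z
      rw [(gg_all hL hρ hh ha z).2.1, sub_mul, div_mul_eq_mul_div, div_mul_eq_mul_div, abs_le]
      constructor <;> linarith
    · simp only [Pi.add_apply]
      rw [integral_add i1 i2, integral_const_mul, integral_const_mul, Kn_integral hρ (by linarith),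
        Kn_integral hρ (by linarith)]
      field_simp
      ring
  · rw [(gg_all hL hρ hh ha z).2.1, sd_off hρ hz, sub_zero]
    have := sd_nonneg ((a - Lg ρ z) / h)
    positivity

lemma layers (hρ : 0 < ρ) (hh : 0 < h) (ha : 2 + h ≤ a) (n : ℕ) :
    ∃ Y : ℂ → ℝ, Integrable Y ∧ (∀ z, 0 ≤ Y z) ∧ ∫ z, Y z ≤ 16 * π * (n + 1) ∧
      ∀ z, 0 ≤ Lg ρ z → Lg ρ z ≤ a → a - Lg ρ z ≤ 2 ^ n * h →
        4 / ‖z‖ ^ 2 ≤ gg ρ (a + 2 * h) h z * Y z := by
  have g0 := gg_nonneg (ρ := ρ) hh (by linarith : 1 + h ≤ a + 2 * h)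
  have g1 := le_gg (ρ := ρ) hh (by linarith : 1 + h ≤ a + 2 * h)
  have key : ∀ W, 0 < W → ∃ Y : ℂ → ℝ, Integrable Y ∧ (∀ z, 0 ≤ Y z) ∧ ∫ z, Y z ≤ 16 * π ∧
      ∀ z, 0 ≤ Lg ρ z → Lg ρ z ≤ a → a - Lg ρ z ≤ W → W / 4 ≤ gg ρ (a + 2 * h) h z →
        4 / ‖z‖ ^ 2 ≤ gg ρ (a + 2 * h) h z * Y z := fun W hW => by
    have h4 : 0 < W / 4 := by linarith
    have p : ∀ z, 0 ≤ Kn ρ (max (a - W) 0) a z / (W / 4) := fun z => div_nonneg (Kn_nonneg z) h4.le
    refine ⟨fun z => Kn ρ (max (a - W) 0) a z / (W / 4), (Kn_int hρ _ _).div_const _, p, ?_,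
      fun z h1 h2 h3 h5 => ?_⟩
    · rw [integral_div, Kn_integral hρ (max_le (by linarith) (by linarith)), div_le_iff₀ h4]
      nlinarith [le_max_left (a - W) 0, pi_pos]
    · rw [← Kn_eq hρ (le_max_right (a - W) 0) (max_le (by linarith) h1) h2,
        ← mul_div_cancel₀ (Kn ρ (max (a - W) 0) a z) h4.ne']
      exact mul_le_mul_of_nonneg_right h5 (p z)
  induction n with
  | zero =>
    obtain ⟨Y, y1, y2, y3, y4⟩ := key h hh
    refine ⟨Y, y1, y2, by simpa using y3, fun z h1 h2 h3 => y4 z h1 h2 (by simpa using h3) ?_⟩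
    linarith [g1 z, uu_le' h2 (by linarith), show ll ρ z = uu (Lg ρ z) from rfl]
  | succ n ih =>
    obtain ⟨Y, y1, y2, y3, y4⟩ := ih
    obtain ⟨Z, z1, z2, z3, z4⟩ := key (2 ^ (n + 1) * h) (by positivity)
    refine ⟨fun z => Y z + Z z, y1.add z1, fun z => add_nonneg (y2 z) (z2 z), ?_,
      fun z h1 h2 h3 => ?_⟩
    · rw [integral_add y1 z1]
      push_cast
      linarith
    rcases le_total (a - Lg ρ z) (2 ^ n * h) with H | H
    · exact (y4 z h1 h2 H).trans
        (mul_le_mul_of_nonneg_left (le_add_of_nonneg_right (z2 z)) (g0 z))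
    · refine (z4 z h1 h2 h3 ?_).trans
        (mul_le_mul_of_nonneg_left (le_add_of_nonneg_left (y2 z)) (g0 z))
      rw [pow_succ]
      rcases le_total (Lg ρ z) 1 with H' | H'
      · linarith [g1 z, uu_le H', show ll ρ z = uu (Lg ρ z) from rfl]
      · linarith [g1 z, uu_eq H', show ll ρ z = uu (Lg ρ z) from rfl]

lemma grad_le (hρ : 0 < ρ) (hh : 0 < h) (ha : 2 + h ≤ a) :
    ∃ Y : ℂ → ℝ, Integrable Y ∧ (∀ z, 0 ≤ Y z) ∧ ∫ z, Y z ≤ 32 * π * (log (a / h) + 1) ∧
      ∀ z, ‖grad (gg ρ a h) z‖ ^ 2 ≤ gg ρ (a + 2 * h) h z * Y z := by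
  have l0 : 0 ≤ log (a / h) := log_nonneg ((one_le_div hh).2 (by linarith))
  obtain ⟨Y, y1, y2, y3, y4⟩ := layers hρ hh ha ⌈2 * log (a / h)⌉₊
  have n1 := (Nat.ceil_lt_add_one (show 0 ≤ 2 * log (a / h) by linarith)).le
  have n2 : a / h ≤ 2 ^ ⌈2 * log (a / h)⌉₊ := by
    rw [← log_le_log_iff (div_pos (by linarith) hh) (by positivity), log_pow]
    nlinarith [Nat.le_ceil (2 * log (a / h)), log_two_gt_d9]
  refine ⟨Y, y1, y2, y3.trans (by nlinarith [pi_pos]), fun z => ?_⟩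
  rw [(gg_all R1.lapRule hρ hh (by linarith) z).2.2]
  by_cases H : 0 ≤ Lg ρ z ∧ Lg ρ z ≤ a
  · have h1 : (smoothTransition (1 - Lg ρ z) - smoothTransition ((a - Lg ρ z) / h)) ^ 2 ≤ 1 := by
      rw [sq_le_one_iff_abs_le_one, abs_le]
      constructor <;> linarith [smoothTransition.nonneg (1 - Lg ρ z),
        smoothTransition.le_one (1 - Lg ρ z), smoothTransition.nonneg ((a - Lg ρ z) / h),
        smoothTransition.le_one ((a - Lg ρ z) / h)]
    exact (mul_le_of_le_one_left (by positivity) h1).trans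
      (y4 z H.1 H.2 (by linarith [(div_le_iff₀ hh).1 n2, H.1]))
  · have : smoothTransition (1 - Lg ρ z) = smoothTransition ((a - Lg ρ z) / h) := by
      rcases not_and_or.1 H with H | H
      · rw [smoothTransition.one_of_one_le (by linarith), smoothTransition.one_of_one_le]
        rw [le_div_iff₀ hh]
        linarith
      · rw [smoothTransition.zero_of_nonpos (by linarith), smoothTransition.zero_of_nonpos]
        exact div_nonpos_of_nonpos_of_nonneg (by linarith) hh.le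
    rw [this, sub_self, zero_pow two_ne_zero, zero_mul]
    exact mul_nonneg (gg_nonneg hh (by linarith) z) (y2 z)

lemma int_log (hρ : 0 < ρ) : IntegrableOn (fun z : ℂ => log (ρ / ‖z‖) * 4) (ball 0 ρ) ∧
    ∫ z in ball (0 : ℂ) ρ, log (ρ / ‖z‖) * 4 = 2 * π * ρ ^ 2 := by
  obtain ⟨h1, h2⟩ := R1.rep univ (fun w : ℂ => ‖w‖ ^ 2) 0 ρ isOpen_univ
    (contDiff_norm_sq ℝ).contDiffOn hρ (subset_univ _)
  rw [circleAverage_const_on_circle (a := ρ ^ 2) fun w hw => by
    rw [mem_sphere_zero_iff_norm.1 hw, sq_abs]] at h2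
  simp only [sub_zero, lap_nsq, norm_zero] at h1 h2
  refine ⟨h1, ?_⟩
  rw [eq_inv_mul_iff_mul_eq₀ (by positivity)] at h2
  rw [← h2]
  ring

lemma lap_poin (hz : ‖z‖ < 1) :
    lap (fun w : ℂ => -log (1 - ‖w‖ ^ 2)) z = 4 / (1 - ‖z‖ ^ 2) ^ 2 := by
  have h0 : 1 - ‖z‖ ^ 2 ≠ 0 := by nlinarith [norm_nonneg z]
  have h2 : ContDiffAt ℝ 2 (fun w : ℂ => ‖w‖ ^ 2) z := (contDiff_norm_sq ℝ).contDiffAt
  obtain ⟨-, -, h3, -⟩ := R1.lapRule _ _ (fun s => -log (1 - s)) z h2 h2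
    ((contDiffAt_const.sub contDiffAt_id).log h0).neg
  have e : deriv (fun s => -log (1 - s)) = fun s => (1 - s)⁻¹ := funext fun s => by
    rw [deriv.fun_neg, deriv_comp_const_sub log, deriv_log, neg_neg]
  rw [h3, e, lap_nsq, grad_nsq, deriv_comp_const_sub (fun s : ℝ => s⁻¹), deriv_inv]
  field_simp
  ring

lemma hyp {g : ℂ → ℝ} (hs : 0 < s) (hs1 : s < 1) (h1 : ∀ z, s ≤ ‖z‖ → g z = 0)
    (h2 : ∀ z ≠ 0, ‖z‖ < s → g z ≤ 2 * log (s / ‖z‖)) :
    ∫⁻ z, ENNReal.ofReal (g z / (1 - ‖z‖) ^ 2) ≤ ENNReal.ofReal (4 * π * log (1 / (1 - s))) := by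
  obtain ⟨i1, i2⟩ := R1.rep (ball 0 1) (fun w : ℂ => -log (1 - ‖w‖ ^ 2)) 0 s isOpen_ball
    ((contDiffOn_const.sub (contDiff_norm_sq ℝ).contDiffOn).log fun w hw => by
      nlinarith [norm_nonneg w, mem_ball_zero_iff.1 hw]).neg hs (closedBall_subset_ball hs1)
  rw [circleAverage_const_on_circle (a := -log (1 - s ^ 2)) fun w hw => by
    rw [mem_sphere_zero_iff_norm.1 hw, sq_abs], eq_inv_mul_iff_mul_eq₀ (by positivity)] at i2
  simp only [sub_zero, norm_zero, ne_eq, OfNat.ofNat_ne_zero, not_false_eq_true, zero_pow, log_one,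
    neg_zero] at i1 i2
  have p : ∀ z ∈ ball (0 : ℂ) s, 0 ≤ log (s / ‖z‖) := fun z hz => by
    rcases eq_or_ne z 0 with rfl | h
    · simp
    · exact log_nonneg ((one_le_div (norm_pos_iff.2 h)).2 (mem_ball_zero_iff.1 hz).le)
  calc _ ≤ ∫⁻ z, indicator (ball 0 s) (fun z : ℂ => ENNReal.ofReal
        (2 * (log (s / ‖z‖) * lap (fun w : ℂ => -log (1 - ‖w‖ ^ 2)) z))) z := by
        refine lintegral_mono_ae ((Measure.ae_ne volume (0 : ℂ)).mono fun z hz => ?_)
        by_cases H : z ∈ ball (0 : ℂ) s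
        · have h3 := mem_ball_zero_iff.1 H
          have h4 := norm_nonneg z
          rw [indicator_of_mem H, lap_poin (h3.trans hs1), ← mul_assoc]
          refine ENNReal.ofReal_le_ofReal ((div_le_div_of_nonneg_right (h2 z hz h3)
            (sq_nonneg _)).trans ?_)
          rw [div_eq_mul_one_div]
          refine mul_le_mul_of_nonneg_left ?_ (mul_nonneg zero_le_two (p z H))
          rw [div_le_div_iff₀ (pow_pos (by linarith) 2) (pow_pos (by nlinarith) 2),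
            show 1 - ‖z‖ ^ 2 = (1 + ‖z‖) * (1 - ‖z‖) by ring, mul_pow, one_mul]
          exact mul_le_mul_of_nonneg_right (by nlinarith) (sq_nonneg _)
        · simp [h1 z (by simpa using H)]
    _ = ENNReal.ofReal (2 * (2 * π * -log (1 - s ^ 2))) := by
        rw [lintegral_indicator measurableSet_ball, i2, ← integral_const_mul,
          ofReal_integral_eq_lintegral_ofReal (i1.const_mul 2)]
        refine (ae_restrict_mem measurableSet_ball).mono fun z hz => ?_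
        have := p z hz
        simp only [Pi.zero_apply, lap_poin ((mem_ball_zero_iff.1 hz).trans hs1)]
        positivity
    _ ≤ _ := by
        refine ENNReal.ofReal_le_ofReal ?_
        have : log (1 - s) ≤ log (1 - s ^ 2) := log_le_log (by linarith) (by nlinarith)
        rw [one_div, log_inv]
        nlinarith [pi_pos]

end Pool.Agent.MP_c69980_ag.H1
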